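import Pool.Agent.N518.VL.Law

/-!
# One Vassiliev invariant for all knots of bounded power length

Starting library `Pool.Agent.H835R2.Knot.Defs`: `Word` (oriented sliced diagrams: lists of maxima, minima and
crossings), `IsKnot`, `Isotopic`, `IsInvariant v` (`v` is an invariant of oriented knots), `DegreeLE n v` (`v` is a
Vassiliev invariant of order at most `n`; the values are in any abelian group).

Starting library `Pool.Agent.Y466.FT.Defs`: `Braid` (braid words, lists of the letters `σ_i^{±1}`), `pow w n` (the power
`w^n`, `n ∈ ℤ`), `family u₀ w u q` (the diagram `u₀ w₁^{q₁} u₁ w₂^{q₂} u₂ ⋯ w_k^{q_k} u_k`; the words `u_j` are arbitrary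
and the strands at the braids may have arbitrary directions).

New definitions (`Pool.Agent.N518.VL`): `plen u₀ w u = |u₀| + ∑_j (|w_j| + |u_j| + 1)`, the length of the description
`u₀ w₁^* u₁ ⋯ w_k^* u_k`; `PowLen t D`: `D` can be written as `u₀ w₁^{q₁} u₁ ⋯ w_k^{q_k} u_k` with a description of length
at most `t` and arbitrary exponents; `TorsionFree A`; `modulus t = (2 t + 2)!`; `cls r s q = r q + s`.

Proof.  Along a residue class of the exponents the Vassiliev invariants are polynomial functions (for this the powers
`w_j^r` have to be pure).  For two such classes the differences `v(D(q)) - v(D'(q'))` generate, `v` running through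
the rational valued Vassiliev invariants of all orders, an ideal of a polynomial ring, which is generated by
finitely many of them (Hilbert's basis theorem).  There are finitely many descriptions of length at most `t` with
letters on at most `2 t` strands.  The finitely many rational valued invariants obtained are combined with coefficients
which are real numbers, linearly independent over `ℚ`.  The number of the coincidences is bounded by the
Schwartz–Zippel lemma.
-/

set_option autoImplicit false

namespace Pool.Agent.Results.MP_31fd3b_gt.BoundedPowerLength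

open Pool.Agent.H835R2.Knot Pool.Agent.Y466.FT Pool.Agent.N518.VL

open Finset Classical in
/-- For every `t` there are a number `d` and **one** real valued Vassiliev invariant `V` of order at most `d`, such
that the following holds for all knots which have a diagram of power length at most `t`, that is, a diagram
`u₀ w₁^{q₁} u₁ ⋯ w_k^{q_k} u_k` (arbitrary pieces of diagrams `u_j`, arbitrary braid words `w_j`) with
`|u₀| + ∑ (|w_j| + |u_j| + 1) ≤ t` and arbitrary exponents `q_j ∈ ℤ` (for example, all knots with bounded numbers of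
maxima, minima and twist regions, the numbers of crossings in the twist regions being arbitrary).

* **`V` decides**: `V(D) = V(E)` if and only if no Vassiliev invariant of any order with values in any torsion-free
  abelian group has different values on `D` and `E`.
* **Coincidences**: let `D(n)`, `n ∈ ℤ^k`, and `D'(n')`, `n' ∈ ℤ^{k'}`, be the diagrams which belong to two such
  descriptions of length at most `t`, and let `s ∈ ℤ^k`, `s' ∈ ℤ^{k'}` be vectors without zeros, such that `D(s)` and
  `D'(s')` are knot diagrams. Let `D_q = D((2 t + 2)! q + s)`, `D'_{q'} = D'((2 t + 2)! q' + s')`, `q ∈ ℤ^k`,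
  `q' ∈ ℤ^{k'}`. All `D_q` and `D'_{q'}` are knot diagrams. The pairs `(q, q')` with `V(D_q) = V(D'_{q'})` are the integral
  zeros of one polynomial with rational coefficients. Either `V(D_q) = V(D'_{q'})` for all `q` and `q'`, or, for
  all finite sets of integers `A_1, …, A_k`, `B_1, …, B_{k'}` with at least `M` elements, at most `d/M` of the pairs
  with `q ∈ ∏ A_i` and `q' ∈ ∏ B_i` have this property. -/
theorem result (t : ℕ) : ∃ (d : ℕ) (V : Word → ℝ), IsInvariant V ∧ DegreeLE d V ∧
    (∀ D E : Word, IsKnot D → IsKnot E →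
      (∃ D₁, Isotopic D D₁ ∧ PowLen t D₁) → (∃ E₁, Isotopic E E₁ ∧ PowLen t E₁) →
      (V D = V E ↔ ∀ (A : Type) [AddCommGroup A], TorsionFree A →
        ∀ (n : ℕ) (v : Word → A), IsInvariant v → DegreeLE n v → v D = v E)) ∧
    (∀ (k k' : ℕ) (u₀ : Word) (w : Fin k → Braid) (u : Fin k → Word)
      (u₀' : Word) (w' : Fin k' → Braid) (u' : Fin k' → Word), plen u₀ w u ≤ t → plen u₀' w' u' ≤ t →
      ∀ (s : Fin k → ℤ) (s' : Fin k' → ℤ), (∀ j, s j ≠ 0) → (∀ j, s' j ≠ 0) →
      IsKnot (family u₀ w u s) → IsKnot (family u₀' w' u' s') →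
      (∀ q, IsKnot (family u₀ w u (cls (modulus t) s q))) ∧
      (∀ q', IsKnot (family u₀' w' u' (cls (modulus t) s' q'))) ∧
      (∃ P : MvPolynomial (Fin k ⊕ Fin k') ℚ, ∀ q q',
        V (family u₀ w u (cls (modulus t) s q)) = V (family u₀' w' u' (cls (modulus t) s' q')) ↔
          MvPolynomial.eval (Sum.elim (fun i => (q i : ℚ)) fun i => (q' i : ℚ)) P = 0) ∧
      ((∀ q q', V (family u₀ w u (cls (modulus t) s q)) =
          V (family u₀' w' u' (cls (modulus t) s' q'))) ∨
        ∀ (A : Fin k → Finset ℤ) (B : Fin k' → Finset ℤ) (M : ℕ), (∀ i, M ≤ (A i).card) →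
          (∀ i, M ≤ (B i).card) →
          M * #{z ∈ Fintype.piFinset A ×ˢ Fintype.piFinset B |
            V (family u₀ w u (cls (modulus t) s z.1)) =
              V (family u₀' w' u' (cls (modulus t) s' z.2))} ≤
            d * ((∏ i, (A i).card) * ∏ i, (B i).card))) := by
  obtain ⟨d, V, h1, h2, h3, h4⟩ := one_pow t
  have iso : ∀ {A : Type} (v : Word → A), IsInvariant v → ∀ D D₁, IsKnot D → Isotopic D D₁ →
      v D = v D₁ := fun v hv D D₁ hD hi => hv D D₁ hD hi
  have h5 : ∀ D E : Word, IsKnot D → IsKnot E → PowLen t D → PowLen t E →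
      (V D = V E ↔ ∀ n, ¬ Separated n D E) := by
    intro D E hD hE hD' hE'
    constructor
    · intro h n
      rw [not_sep]
      exact h4 D E hD hE hD' hE' h n
    · intro h
      exact h3 D E (h d)
  refine ⟨d, V, h1, h2, ?_, ?_⟩
  · rintro D E hD hE ⟨D₁, hi, hD₁⟩ ⟨E₁, hi', hE₁⟩
    have k1 : IsKnot D₁ := (Pool.Agent.H835R2.Knot.isotopic_knot hi).1 hD
    have k2 : IsKnot E₁ := (Pool.Agent.H835R2.Knot.isotopic_knot hi').1 hE
    constructor
    · intro h A _ hA n v hv hn
      rw [iso v hv D D₁ hD hi, iso v hv E E₁ hE hi']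
      rw [iso V h1 D D₁ hD hi, iso V h1 E E₁ hE hi'] at h
      exact torsionFree_of_rat (h4 D₁ E₁ k1 k2 hD₁ hE₁ h) hA n v hv hn
    · intro h
      exact h ℝ torsionFree_real d V h1 h2
  · intro k k' u₀ w u u₀' w' u' ht ht' s s' hs hs' hk hk'
    have hD := fam_ne ht hs hk
    have hD' := fam_ne ht' hs' hk'
    have h6 : ∀ q q', (V (family u₀ w u (cls (modulus t) s q)) =
        V (family u₀' w' u' (cls (modulus t) s' q')) ↔
        ∀ n, ¬ Separated n (family u₀ w u (cls (modulus t) s q))
          (family u₀' w' u' (cls (modulus t) s' q'))) := fun q q' =>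
      h5 _ _ (hD.1 q) (hD'.1 q') ⟨k, u₀, w, u, _, ht, rfl⟩ ⟨k', u₀', w', u', _, ht', rfl⟩
    refine ⟨hD.1, hD'.1, ?_, ?_⟩
    · obtain ⟨e, P, hP⟩ := locus_pair hD hD'
      refine ⟨P, fun q q' => ?_⟩
      rw [h6, (hP q q').1]
      constructor
      · intro h
        exact h e
      · intro h n hn
        exact h ((hP q q').2.2 ⟨n, hn⟩)
    · by_cases h7 : ∀ q q', V (family u₀ w u (cls (modulus t) s q)) =
          V (family u₀' w' u' (cls (modulus t) s' q'))
      · exact Or.inl h7
      · right
        push Not at h7
        obtain ⟨q₀, q₀', h8⟩ := h7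
        have h9 : Separated d (family u₀ w u (cls (modulus t) s q₀))
            (family u₀' w' u' (cls (modulus t) s' q₀')) := by
          by_contra h10
          exact h8 (h3 _ _ h10)
        intro A B M hA hB
        refine le_trans (Nat.mul_le_mul_left _ (Finset.card_le_card ?_))
          (zero_one hD hD' h9 A B M hA hB)
        intro z hz
        rw [Finset.mem_filter] at hz ⊢
        exact ⟨hz.1, (h6 z.1 z.2).1 hz.2 d⟩

end Pool.Agent.Results.MP_31fd3b_gt.BoundedPowerLength
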