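import Pool.Agent.N518.KT.Fam

/-!
# Coincidences of Vassiliev invariants of bounded order are as complicated as Diophantine equations

Starting library `Pool.Agent.V11208.FT.Defs`: `Word n` (braid words on `n + 1` strands: lists of letters `(i, e)`,
the crossing `σ_i` or its inverse), `Link m` (braid words with closures with `m` numbered components, modulo the
braid relations, conjugation and stabilisation), singular braid words, `doublePoints`, `res` (the extension to
singular braid words by `f(double point) = f(positive) - f(negative)`).

New definitions (`Pool.Agent.N518.KT`): `Knot = Link 1`, `IsKnot w`, `closure w h`, `unknot`; `DegreeLE N v`: `v` is a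
Vassiliev invariant of order at most `N` (values in any abelian group); `cm g k = g k g⁻¹ k⁻¹`;
`nest a b [e_1, …, e_n] = [a^{e_1}, [a^{e_2}, ⋯ [a^{e_{n-1}}, b^{e_n}]]]`; a list `D` of pairs `(c, (e_1, …, e_n))`, `c ∈ ℤ`, with
formal exponents `e_i`, each of which is `1` or one of `k` variables; `expt q`: substitution of the integers `q` for
the variables; `prodNest a b D q`: the product of the `nest a b (e_1(q), …, e_n(q)) ^ c`; `value D q`: the integer
`∑ c e_1(q) ⋯ e_n(q)`; `word D q`: the reduced braid word of `σ₁ σ₂ prodNest (σ₁²) (σ₂²) D q` (three strands);
`knot D q`: its closure; `Entries n D`: the lists have `n` entries.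

So `knot D q` is a family of closed 3-braids, given by a word in which the variables `q_i` occur as exponents.
-/

set_option autoImplicit false

namespace Pool.Agent.Results.MP_31fd3b_gt.DiophantineFamilies

open Pool.Agent.V11208.FT Pool.Agent.N518.KT

/-- The knots are not separated by the Vassiliev invariants of order at most `n` with values in any abelian group
(they are `C_{n+1}`-equivalent, by the theorem of Goussarov and Habiro). -/
def Same (n : ℕ) (K K' : Knot) : Prop :=
  ∀ (A : Type) [AddCommGroup A] (v : Knot → A), DegreeLE n v → v K = v K'

/-- Let `n ≥ 2` be even.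

* **All polynomials**: every polynomial `P` with integral coefficients, of degree at most `n`, in any number `k` of
  variables is the function `value D` for a list `D` with `n` entries in each iterated commutator.
* **Low orders**: for all such lists `D` and all `q ∈ ℤ^k` the Vassiliev invariants of order less than `n` have on
  `knot D q` the same value as on the unknot.
* **Order `n`**: there is a knot `K₁`, such that for all such `D`, all `q` and all Vassiliev invariants `v` of order at
  most `n`, with values in any abelian group, `v(knot D q) - v(unknot) = value D q • (v(K₁) - v(unknot))`. There are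
  one complex valued Vassiliev invariant `v` of order at most `n` (a coefficient of the Conway polynomial) and a
  number `c ≠ 0`, such that `v(knot D q) = v(unknot) + c value D q` for all `D` and `q`.
* **Coincidences**: two knots `knot D q` and `knot D' q'` of two families (or of the same) are not separated by
  Vassiliev invariants of order at most `n` if and only if `value D q = value D' q'`; the knot `knot D q` is not
  separated from the unknot by invariants of order at most `n` if and only if `value D q = 0`.

So every Diophantine equation of degree at most `n` is the question for which parameters a member of a family of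
closed 3-braids is not separated from the unknot (or the members of two families are not separated from each
other) by the invariants of order at most `n`. As there is no algorithm which decides the solvability of Diophantine
equations of degree four, there is no algorithm which decides if such a family contains a knot which is not
separated from the unknot by the Vassiliev invariants of order at most four. -/
theorem result (n : ℕ) (hn : 2 ≤ n) (he : Even n) :
    (∀ (k : ℕ) (P : MvPolynomial (Fin k) ℤ), P.totalDegree ≤ n →
      ∃ D : List (ℤ × List (Option (Fin k))), Entries n D ∧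
        ∀ q, value D q = MvPolynomial.eval q P) ∧
    (∀ (k : ℕ) (D : List (ℤ × List (Option (Fin k)))), Entries n D → ∀ (q : Fin k → ℤ) (m : ℕ),
      m < n → Same m (knot D q) unknot) ∧
    (∃ K₁ : Knot, ∀ (k : ℕ) (D : List (ℤ × List (Option (Fin k)))), Entries n D →
      ∀ (q : Fin k → ℤ) (A : Type) [AddCommGroup A] (v : Knot → A), DegreeLE n v →
        v (knot D q) - v unknot = value D q • (v K₁ - v unknot)) ∧
    (∃ v : Knot → ℂ, DegreeLE n v ∧ ∃ c : ℂ, c ≠ 0 ∧
      ∀ (k : ℕ) (D : List (ℤ × List (Option (Fin k)))), Entries n D → ∀ q : Fin k → ℤ,
        v (knot D q) = v unknot + c * value D q) ∧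
    (∀ (k k' : ℕ) (D : List (ℤ × List (Option (Fin k)))) (D' : List (ℤ × List (Option (Fin k')))),
      Entries n D → Entries n D' → ∀ (q : Fin k → ℤ) (q' : Fin k' → ℤ),
        Same n (knot D q) (knot D' q') ↔ value D q = value D' q') ∧
    (∀ (k : ℕ) (D : List (ℤ × List (Option (Fin k)))), Entries n D → ∀ q : Fin k → ℤ,
        Same n (knot D q) unknot ↔ value D q = 0) := by
  obtain ⟨j, rfl⟩ : ∃ j, n = 2 * j + 1 + 1 := by
    obtain ⟨i, hi⟩ := he
    exact ⟨i - 1, by omega⟩
  set c : ℂ := (-2) ^ (2 * j + 1 + 1) * 4 ^ j with hc
  have hc0 : c ≠ 0 := mul_ne_zero (pow_ne_zero _ (by norm_num)) (pow_ne_zero _ (by norm_num))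
  have hcw : ∀ (k : ℕ) (D : List (ℤ × List (Option (Fin k)))), Entries (2 * j + 1 + 1) D →
      ∀ q : Fin k → ℤ, cw (2 * j + 1 + 1) (knot D q) =
        cw (2 * j + 1 + 1) unknot + c * value D q := fun k D hD q => cw_knot hD q
  have hsame : ∀ (k k' : ℕ) (D : List (ℤ × List (Option (Fin k))))
      (D' : List (ℤ × List (Option (Fin k')))),
      Entries (2 * j + 1 + 1) D → Entries (2 * j + 1 + 1) D' → ∀ (q : Fin k → ℤ) (q' : Fin k' → ℤ),
        Same (2 * j + 1 + 1) (knot D q) (knot D' q') ↔ value D q = value D' q' := by
    intro k k' D D' hD hD' q q'
    constructor
    · intro h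
      have h1 := h ℂ _ (degree_cw _)
      rw [hcw k D hD q, hcw k' D' hD' q'] at h1
      have h2 := mul_left_cancel₀ hc0 (add_left_cancel h1)
      exact_mod_cast h2
    · intro h A _ v hv
      have h1 := top hD q hv
      have h2 := top hD' q' hv
      rw [h, ← h2] at h1
      exact sub_left_injective h1
  refine ⟨fun k P hP => exists_list _ P hP, ?_, ?_, ⟨_, degree_cw _, c, hc0, hcw⟩, hsame, ?_⟩
  · intro k D hD q m hm A _ v hv
    exact low hD q hm hv
  · refine ⟨knot (one (2 * j + 1)) Fin.elim0, ?_⟩
    intro k D hD q A _ v hv
    rw [top hD q hv, top (one_entries _) _ hv, one_value, one_smul]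
  · intro k D hD q
    have h1 := hsame k 0 D [] hD (fun p hp => by simp at hp) q Fin.elim0
    rw [knot_nil] at h1
    rw [h1]
    simp [value]

end Pool.Agent.Results.MP_31fd3b_gt.DiophantineFamilies
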