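import Pool.Agent.N566.VV.CSx

/-!
# Vassiliev invariants and the complex volume

Oriented knots are given by sliced diagrams (`Pool.Agent.H835R2.Knot.Defs`: `Word`, `IsKnot`,
`Isotopic`, `IsInvariant`, `DegreeLE`, the last one in Vassiliev's sense, by alternating sums over
crossing changes).  The two classes of knots and the sets of the volumes of their angle structures
are defined in `Pool.Agent.N566.VV.Knots`:

* `ArbKnot K D s`: `D` is a diagram of the arborescent (Conway algebraic) knot of the weighted planar
  tree `s` or of its mirror image; all vertices of `s` have weights of absolute value at least `16` or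
  at least `32` neighbours; or all vertices are large (`K² ≤ n² + a²` for `n` neighbours and the weight
  `a`) or small (`Pool.Agent.N561.V.ArbG`), no two small ones being neighbours;
* `RingKnot K M D m ts`: `D` is a diagram of a knot which is the closure of
  `(s_1 s_2 s_1)^{2 m} T_1 U_1 ⋯ T_k U_k` (Conway's basic polyhedron `(2 k)*` with the tangles of trees
  substituted for the vertices, and `m` full twists), or of its mirror image; the roots of the trees
  have at most `d` children and weights of absolute value at least `M d`, for some `d`, and the other
  vertices are large or small, no two small ones being neighbours.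

`Volumes K M D S`: `D` is such a diagram, and `S` is the set of the volumes of the angle structures of
the complement.  `ComplexVolume K D V C` (`Pool.Agent.N566.VV.CSx`): `D` is a diagram of a knot of the
first class, and `V + i C` is the complex volume of its complement, modulo `i π²`, by Neumann's formula
(`HasCS` in `Pool.Agent.TH563.CV.CS`).
-/

set_option autoImplicit false

namespace Pool.Agent.Results.MP_31fd3b_gt.HyperbolicVolume

open Pool.Agent.H835R2.Knot Pool.Agent.N566.VV

/-- **Vassiliev invariants determine the hyperbolic volume of these knots, and the complex volume of
the arborescent ones.**  There are `K` and `M` such that: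
(1) For every knot of the two classes the set `S` of the volumes of the angle structures of the
complement has a positive maximum (by Casson, Rivin, Hodgson and Thurston a point of maximum is the
complete hyperbolic structure, and the maximum is the hyperbolic volume).
(2) Two knots of the classes with different volumes `V ≠ W` are separated by a Vassiliev invariant with
rational values (of some order).
(3) Every knot of the first class, the arborescent knots, has a complex volume `V + i C` (`C` is the
Chern-Simons invariant, modulo `π²`).
(4) Two knots of the first class with different complex volumes, that is, `V ≠ W` or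
`C ≢ C' mod π²`, are separated by a Vassiliev invariant with rational values.  (With `D = E` this
says that the complex volume modulo `i π²` does not depend on the choices.  For `E` the mirror image of
`D`, with the complex volume `V - i C`: `D` and its mirror image are separated if
`2 C ≢ 0 mod π²`.) -/
theorem result : ∃ (K : ℕ) (M : ℕ → ℕ),
    (∀ (D : Word) (S : Set ℝ), Volumes K M D S → ∃ V : ℝ, 0 < V ∧ IsGreatest S V) ∧
    (∀ (D E : Word) (S T : Set ℝ) (V W : ℝ), Volumes K M D S → Volumes K M E T →
      IsGreatest S V → IsGreatest T W → V ≠ W →
      ∃ (n : ℕ) (w : Word → ℚ), IsInvariant w ∧ DegreeLE n w ∧ w D ≠ w E) ∧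
    (∀ (D : Word) (s : Pool.Agent.TH563.UV.Arb.Tree), ArbKnot K D s →
      ∃ V C : ℝ, IsGreatest (arbVolumes s) V ∧ ComplexVolume K D V C) ∧
    ∀ (D E : Word) (V C W C' : ℝ), ComplexVolume K D V C → ComplexVolume K E W C' →
      (V ≠ W ∨ ∀ k : ℤ, C ≠ C' + k * Real.pi ^ 2) →
      ∃ (n : ℕ) (w : Word → ℚ), IsInvariant w ∧ DegreeLE n w ∧ w D ≠ w E :=
  main5

end Pool.Agent.Results.MP_31fd3b_gt.HyperbolicVolume
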