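import Pool.Agent.N566.VV.Sep2

/-!
# Vassiliev invariants separate highly twisted knots from all knots of smaller complexity

Oriented knots are given by sliced diagrams (`Pool.Agent.H835R2.Knot.Defs`: `Word`, `IsKnot`,
`Isotopic`, `IsInvariant`, `DegreeLE`).  `Volumes K M D S` (`Pool.Agent.N566.VV.Knots`, see also
`Pool.Agent.Results.MP_31fd3b_gt.HyperbolicVolume`) says that `D` is a diagram of a knot of one of two
classes, arborescent knots and knots on Conway's polyhedra with large and small vertices, and `S` is
the set of the volumes of the angle structures of its complement, the maximum of which is the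
hyperbolic volume.

* `TwistDiagram T E` (`Pool.Agent.N566.VV.Sep`): `E` is a diagram of the knot which is the closure of
  the (1,1)-tangle diagram `T`, a list of minima, maxima and twist regions (any number of crossings in
  a row); every knot diagram is of this form.  `regions T` is the list of the numbers of crossings of
  the twist regions, and `rate m = min (m v_8) (10 v_3)`, with the volumes `v_3 = 1.0149…`,
  `v_8 = 3.6638…` of the regular ideal tetrahedron and octahedron
  (`Pool.Agent.Results.MP_759431_gt.TwistRegionBound`).
* `ArbDiagram t E` (`Pool.Agent.N566.VV.Sep`): `E` is a diagram of the arborescent knot of the weighted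
  planar tree `t`; the weights are arbitrary integers.  `edges t` is the number of edges, so
  `edges t + 1` is the number of vertices, the twist regions (`Pool.Agent.TH563.UB.ArbU`);
  `octahedron = v_8`.  `AllTwisted s` (`Pool.Agent.N561.EK.ArbE`): every vertex has weight at least
  `16` in absolute value or at least `32` neighbours.
* `RingDiagram m ts E` (`Pool.Agent.N566.VV.Sep2`): `E` is a diagram of the knot which is the closure
  of `(s_1 s_2 s_1)^{2 m} T_1 U_1 ⋯ T_k U_k`, with the tangles of the `2 k` trees of the list `ts`,
  `k = ts.length ≥ 1`, `(k, m) ≠ (1, 0)`; `m` is any integer and the trees are arbitrary.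
  `ringEdges ts` is the number of edges of all trees.
-/

set_option autoImplicit false

namespace Pool.Agent.Results.MP_31fd3b_gt.SmallerComplexity

open Pool.Agent.H835R2.Knot Pool.Agent.N566.VV
open Pool.Agent.Results.MP_759431_gt.TwistRegionBound (regions rate)
open Pool.Agent.TH563.UV.Arb (Tree)
open Pool.Agent.TH563.UB.Arb (edges octahedron)
open Pool.Agent.N561.ArbK (AllTwisted)

/-- **Vassiliev invariants separate highly twisted knots from all knots of smaller complexity.**
(1) There are `K` and `M` such that for every knot `D` of the two classes, `V` its hyperbolic volume,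
rational Vassiliev invariants separate `D` from every knot `E` which
(i) has a diagram with `∑ min (m_i v_8) (10 v_3) < V`, the sum over the twist regions (`m_i`
crossings) of the diagram, or
(ii) is an arborescent knot of a tree with `e` edges, `2 v_8 e < V`, whatever the weights, or
(iii) is the closure of `(s_1 s_2 s_1)^{2 m} T_1 U_1 ⋯ T_k U_k` for an integer `m` and arbitrary trees
with `e` edges in all, `2 v_8 (2 k + e) < V`; for instance (`e = 0`) a closed 3-braid
`(s_1 s_2 s_1)^{2 m} s_1^{a_1} s_2^{b_1} ⋯ s_1^{a_k} s_2^{b_k}`, `4 k v_8 < V`.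
(2) With explicit constants: let `D` be the arborescent knot of a tree with `n ≥ 1` edges, every
vertex having weight at least `16` in absolute value or at least `32` neighbours.  Then rational
Vassiliev invariants separate `D` from every knot which
(i) has a diagram with at most `0.7 n` twist regions, or
(ii) is an arborescent knot of a tree with `e` edges, `42 e ≤ 41 n` (so it suffices that `e < n ≤ 42`),
or (iii) is a closure as in (1) (iii) with `42 (2 k + e) ≤ 41 n`. -/
theorem result :
    (∃ (K : ℕ) (M : ℕ → ℕ), ∀ (D : Word) (S : Set ℝ) (V : ℝ), Volumes K M D S → IsGreatest S V →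
      ∀ E : Word, ((∃ T, TwistDiagram T E ∧ ((regions T).map rate).sum < V) ∨
          (∃ t, ArbDiagram t E ∧ 2 * octahedron * edges t < V) ∨
          ∃ m ts, RingDiagram m ts E ∧ 2 * octahedron * (2 * ts.length + ringEdges ts) < V) →
        ∃ (d : ℕ) (w : Word → ℚ), IsInvariant w ∧ DegreeLE d w ∧ w D ≠ w E) ∧
    ∀ (s : Tree) (D : Word), AllTwisted s → 1 ≤ s.children → ArbDiagram s D →
      ∀ E : Word, ((∃ T, TwistDiagram T E ∧ 10 * (regions T).length ≤ 7 * edges s) ∨
          (∃ t, ArbDiagram t E ∧ 42 * edges t ≤ 41 * edges s) ∨
          ∃ m ts, RingDiagram m ts E ∧ 42 * (2 * ts.length + ringEdges ts) ≤ 41 * edges s) →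
        ∃ (d : ℕ) (w : Word → ℚ), IsInvariant w ∧ DegreeLE d w ∧ w D ≠ w E := by
  refine ⟨?_, fun s D hs hc hD E hE => ?_⟩
  · obtain ⟨K, M, h⟩ := main2r
    refine ⟨K, M, fun D S V hD hV E hE => ?_⟩
    obtain ⟨h1, h2, h3⟩ := h D S V hD hV
    rcases hE with ⟨T, k1, k2⟩ | ⟨t, k1, k2⟩ | ⟨m, ts, k1, k2⟩
    · exact h1 T E k1 k2
    · exact h2 t E k1 k2
    · exact h3 m ts E k1 k2
  · obtain ⟨h1, h2, h3⟩ := main4r s D hs hc hD
    rcases hE with ⟨T, k1, k2⟩ | ⟨t, k1, k2⟩ | ⟨m, ts, k1, k2⟩
    · exact h1 T E k1 k2
    · exact h2 t E k1 k2
    · exact h3 m ts E k1 k2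

end Pool.Agent.Results.MP_31fd3b_gt.SmallerComplexity
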